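import Mathlib

open CategoryTheory Limits MonoidalCategory

/-!
# MP_93437d_al: tensor-vanishing maps out of the unit in `D^b(C)`

For every finite symmetric tensor category `C` there is a single nonzero object `Z` of `D^b(C)`
such that, whenever `f : 𝟙 ⟶ X` and `g : 𝟙 ⟶ Y` in `D^b(C)` satisfy `f ⊗ g = 0`, one of
`f ⊗ Z`, `g ⊗ Z` is zero (so `f` or `g` is `⊗`-nilpotent on `Z`, already with exponent `1`).
-/

noncomputable section
namespace Pool.Agent.Results.MP_93437d_al.NilpotentOnObject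

universe w v u

section A


/-- coproducts of families with finite support exist -/
lemma hasCoproduct_of_finite {C : Type u} [Category.{v} C] [HasZeroMorphisms C]
    [HasFiniteCoproducts C] {J : Type*} (f : J → C) (S : Set J) (hS : S.Finite)
    (h : ∀ j, j ∉ S → IsZero (f j)) : HasCoproduct f := by
  classical
  have : Finite S := hS
  let c : Cofan f := Cofan.mk (∐ fun j : S => f j)
    (fun j => if hj : j ∈ S then Limits.Sigma.ι (fun j : S => f j) ⟨j, hj⟩ else 0)
  refine ⟨⟨⟨c, Cofan.IsColimit.mk c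
    (fun s => Limits.Sigma.desc (f := fun j : S => f j) fun j => s.inj (j : J)) ?_ ?_⟩⟩⟩
  · intro s j
    by_cases hj : j ∈ S
    · simp [c, hj]
    · exact (h j hj).eq_of_src _ _
  · intro s m hm
    refine Limits.Sigma.hom_ext (f := fun j : S => f j) _ _ fun j => ?_
    have := hm j
    simp only [c, cofan_mk_inj] at this
    rw [dif_pos j.2] at this
    simp only [colimit.ι_desc, Cofan.mk_ι_app]
    exact this

variable (C : Type u) [Category.{v} C] [Abelian C] [MonoidalCategory C] [MonoidalPreadditive C]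

/-- Bounded cochain complexes. -/
def bdd : ObjectProperty (CochainComplex C ℤ) :=
  fun K => ∃ a b : ℤ, ∀ i : ℤ, (i < a ∨ b < i) → IsZero (K.X i)

/-- The category of bounded cochain complexes. -/
abbrev BC := (bdd C).FullSubcategory

variable {C}
lemma isZero_tensor_left {A B : C} (h : IsZero A) : IsZero (A ⊗ B) := by
  rw [IsZero.iff_id_eq_zero] at h ⊢
  rw [← id_whiskerRight, h]; simp

lemma isZero_tensor_right {A B : C} (h : IsZero B) : IsZero (A ⊗ B) := by
  rw [IsZero.iff_id_eq_zero] at h ⊢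
  rw [← whiskerLeft_id, h]; simp

instance (K L : BC C) : HomologicalComplex.HasTensor K.obj L.obj := by
  intro j
  obtain ⟨a, b, hK⟩ := K.property
  obtain ⟨a', b', hL⟩ := L.property
  refine hasCoproduct_of_finite _ {x | x.1 ∈ Set.Icc a b ×ˢ Set.Icc a' b'} ?_ ?_
  · apply Set.Finite.of_injOn (f := fun x => x.1) (t := Set.Icc a b ×ˢ Set.Icc a' b')
    · intro x hx; exact hx
    · intro x _ y _ h; exact Subtype.ext h
    · exact (Set.finite_Icc _ _).prod (Set.finite_Icc _ _)
  · rintro ⟨⟨i1, i2⟩, hi⟩ hx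
    simp only [Set.mem_ofPred_eq, Set.mem_prod, Set.mem_Icc, not_and_or, not_le] at hx
    rcases hx with hx | hx
    · exact isZero_tensor_left (hK i1 hx)
    · exact isZero_tensor_right (hL i2 hx)

lemma isZero_tensorObj (K L : BC C) (n : ℤ)
    (h : ∀ i j : ℤ, i + j = n → IsZero (K.obj.X i) ∨ IsZero (L.obj.X j)) :
    IsZero ((HomologicalComplex.tensorObj K.obj L.obj).X n) := by
  rw [IsZero.iff_id_eq_zero]
  apply HomologicalComplex.mapBifunctor.hom_ext
  intro i j hij
  rcases h i j hij with h | h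
  · exact (isZero_tensor_left h).eq_of_src _ _
  · exact (isZero_tensor_right h).eq_of_src _ _

/-- The tensor product of two bounded complexes (the total complex of `Kⁱ ⊗ Lʲ`). -/
def tens (K L : BC C) : BC C :=
  ⟨HomologicalComplex.tensorObj K.obj L.obj, by
    obtain ⟨a, b, hK⟩ := K.property
    obtain ⟨a', b', hL⟩ := L.property
    refine ⟨a + a', b + b', fun n hn => isZero_tensorObj K L n fun i j hij => ?_⟩
    by_cases h1 : i < a ∨ b < i
    · exact Or.inl (hK i h1)
    · refine Or.inr (hL j ?_)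
      omega⟩

/-- The tensor product of two morphisms of bounded complexes. -/
def tensMap {K K' L L' : BC C} (φ : K ⟶ K') (ψ : L ⟶ L') : tens K L ⟶ tens K' L' :=
  (bdd C).homMk (HomologicalComplex.tensorHom φ.hom ψ.hom)

/-- An object of `C`, viewed as a complex concentrated in degree `0`. -/
def deg0 (M : C) : BC C :=
  ⟨(HomologicalComplex.single C (ComplexShape.up ℤ) 0).obj M, 0, 0, fun i hi =>
    HomologicalComplex.isZero_single_obj_X _ _ _ _ (by omega)⟩

variable (C) [HasDerivedCategory.{w} C]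

/-- The objects of the derived category `D(C)` isomorphic to a bounded complex. -/
def isBddD : ObjectProperty (DerivedCategory C) :=
  fun X => ∃ K : BC C, Nonempty (X ≅ DerivedCategory.Q.obj K.obj)

/-- The bounded derived category `D^b(C)`: the full subcategory of the derived category `D(C)`
on the objects isomorphic to a bounded complex. -/
abbrev Db := (isBddD C).FullSubcategory

/-- The functor from bounded complexes to `D^b(C)`. -/
def toDb : BC C ⥤ Db C :=
  (isBddD C).lift ((bdd C).ι ⋙ DerivedCategory.Q) (fun K => ⟨K, ⟨Iso.refl _⟩⟩)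

/-- The monoidal structure on `D^b(C)` is the one *induced by the tensor product of complexes*:
its unit is `𝟙` in degree `0`, and, naturally in the bounded complexes `K` and `L`, the tensor
product of `K` and `L` in `D^b(C)` is the total complex `K ⊗ L`.  (No coherence with the
associator and the unitors is asked for.) -/
structure Induced [MonoidalCategory (Db C)] where
  unitIso : 𝟙_ (Db C) ≅ (toDb C).obj (deg0 (𝟙_ C))
  tensIso : ∀ K L : BC C, (toDb C).obj K ⊗ (toDb C).obj L ≅ (toDb C).obj (tens K L)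
  natural : ∀ {K K' L L' : BC C} (φ : K ⟶ K') (ψ : L ⟶ L'),
    ((toDb C).map φ ⊗ₘ (toDb C).map ψ) ≫ (tensIso K' L').hom =
      (tensIso K L).hom ≫ (toDb C).map (tensMap φ ψ)



end A

section B

variable {C : Type u} [Category.{v} C] [Abelian C]

/-- complex concentrated in degree 0 -/
abbrev sg (M : C) : CochainComplex C ℤ := (HomologicalComplex.single C (ComplexShape.up ℤ) 0).obj M

instance (P : C) [Projective P] (n : ℤ) : Projective ((sg P).X n) := by
  by_cases h : n = 0
  · subst h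
    exact Projective.of_iso (HomologicalComplex.singleObjXSelf (ComplexShape.up ℤ) 0 P).symm
      inferInstance
  · exact (HomologicalComplex.isZero_single_obj_X _ _ _ _ h).projective

instance (P : C) [Projective P] : (sg P).IsKProjective :=
  CochainComplex.isKProjective_of_projective _ 0

variable [HasDerivedCategory.{w} C]

lemma exists_rep (P : C) [Projective P] (K : CochainComplex C ℤ)
    (f : DerivedCategory.Q.obj (sg P) ⟶ DerivedCategory.Q.obj K) :
    ∃ α : sg P ⟶ K, DerivedCategory.Q.map α = f := by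
  obtain ⟨g, hg⟩ := (CochainComplex.IsKProjective.Qh_map_bijective (sg P)
    ((HomotopyCategory.quotient _ _).obj K)).surjective
    ((DerivedCategory.quotientCompQhIso C).hom.app _ ≫ f ≫
      (DerivedCategory.quotientCompQhIso C).inv.app K)
  obtain ⟨α, rfl⟩ := (HomotopyCategory.quotient _ _).map_surjective g
  refine ⟨α, ?_⟩
  have h1 := DerivedCategory.quotientCompQhIso_hom_naturality α
  rw [hg] at h1
  rw [← cancel_epi ((DerivedCategory.quotientCompQhIso C).hom.app _), ← h1]
  simp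

lemma comp_pOpcycles_eq_zero {M K : CochainComplex C ℤ} (γ : M ⟶ K) (hM : M.d 0 1 = 0)
    (h : DerivedCategory.Q.map γ = 0) : γ.f 0 ≫ K.pOpcycles 0 = 0 := by
  have h1 : HomologicalComplex.homologyMap γ 0 = 0 := by
    have h2 := (DerivedCategory.homologyFunctorFactors C 0).hom.naturality γ
    rw [Functor.comp_map, h, Functor.map_zero, zero_comp] at h2
    have h3 : (HomologicalComplex.homologyFunctor C (ComplexShape.up ℤ) 0).map γ = 0 := by
      rw [← cancel_epi ((DerivedCategory.homologyFunctorFactors C 0).hom.app M), ← h2, comp_zero]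
    exact h3
  have : IsIso (M.iCycles 0) := M.isIso_iCycles 0 1 (by simp) hM
  rw [← cancel_epi (M.iCycles 0), comp_zero, ← HomologicalComplex.cyclesMap_i_assoc,
    ← HomologicalComplex.homology_π_ι, ← HomologicalComplex.homologyπ_naturality_assoc, h1]
  simp

/-- the class of a map `P[0] ⟶ K` -/
def bar {P : C} {K : CochainComplex C ℤ} (α : sg P ⟶ K) : P ⟶ K.opcycles 0 :=
  (HomologicalComplex.singleObjXSelf (ComplexShape.up ℤ) 0 P).inv ≫ α.f 0 ≫ K.pOpcycles 0

lemma bar_eq_zero_of {P : C} {K : CochainComplex C ℤ} (α : sg P ⟶ K)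
    (h : DerivedCategory.Q.map α = 0) : bar α = 0 := by
  rw [bar, comp_pOpcycles_eq_zero α (by simp) h, comp_zero]

lemma Q_eq_zero_of_bar {P : C} [Projective P] {K : CochainComplex C ℤ} (α : sg P ⟶ K)
    (h : bar α = 0) : DerivedCategory.Q.map α = 0 := by
  -- lift through `K.X (-1)`
  have hex : (ShortComplex.mk (K.d (-1) 0) (K.pOpcycles 0) (by simp)).Exact :=
    ShortComplex.exact_of_g_is_cokernel _ (K.opcyclesIsCokernel (-1) 0 (by simp))
  let h' : P ⟶ K.X (-1) := hex.liftFromProjective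
    ((HomologicalComplex.singleObjXSelf (ComplexShape.up ℤ) 0 P).inv ≫ α.f 0) (by simpa [bar] using h)
  have hh : h' ≫ K.d (-1) 0 = (HomologicalComplex.singleObjXSelf (ComplexShape.up ℤ) 0 P).inv ≫ α.f 0 :=
    hex.liftFromProjective_comp _ _
  rw [DerivedCategory.Q_map_eq_of_homotopy (g := 0), Functor.map_zero]
  have e := CochainComplex.HomComplex.Cochain.δ_fromSingleMk (X := P) h'
    (by omega : (0 : ℤ) + (-1) = -1) 0 0 (by omega)
  rw [hh] at e
  refine (CochainComplex.HomComplex.Cochain.equivHomotopy α 0).symm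
    ⟨CochainComplex.HomComplex.Cochain.fromSingleMk (X := P) h' (by omega), ?_⟩
  refine Eq.trans ?_ (congrArg (· + CochainComplex.HomComplex.Cochain.ofHom 0) e.symm)
  apply (CochainComplex.HomComplex.Cochain.fromSingleEquiv (by omega : (0:ℤ) + 0 = 0)).injective
  simp [CochainComplex.HomComplex.Cochain.fromSingleEquiv]
  exact CochainComplex.HomComplex.Cochain.ofHom_v _ _


end B

section Cc

variable {C : Type u} [Category.{v} C] [Abelian C] [MonoidalCategory C] [MonoidalPreadditive C]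
  [RigidCategory C]

lemma epi_whiskerLeft (W : C) {A B : C} (f : A ⟶ B) [Epi f] : Epi (W ◁ f) := by
  have := (tensorLeftAdjunction (ᘁW) W).isLeftAdjoint
  exact inferInstanceAs (Epi ((tensorLeft W).map f))

lemma mono_whiskerLeft (W : C) {A B : C} (f : A ⟶ B) [Mono f] : Mono (W ◁ f) := by
  have := (tensorLeftAdjunction W (Wᘁ)).isRightAdjoint
  exact inferInstanceAs (Mono ((tensorLeft W).map f))

lemma epi_whiskerRight (W : C) {A B : C} (f : A ⟶ B) [Epi f] : Epi (f ▷ W) := by
  have := (tensorRightAdjunction W (Wᘁ)).isLeftAdjoint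
  exact inferInstanceAs (Epi ((tensorRight W).map f))

lemma mono_whiskerRight (W : C) {A B : C} (f : A ⟶ B) [Mono f] : Mono (f ▷ W) := by
  have := (tensorRightAdjunction (ᘁW) W).isRightAdjoint
  exact inferInstanceAs (Mono ((tensorRight W).map f))

lemma projective_tensor (W P : C) [hP : Projective P] : Projective (W ⊗ P) := by
  have : (tensorLeft (ᘁW)).PreservesEpimorphisms :=
    ⟨fun f _ => epi_whiskerLeft (ᘁW) f⟩
  exact (tensorLeftAdjunction (ᘁW) W).map_projective P hP

/-- In a symmetric rigid abelian category in which every nonzero endomorphism of the unit is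
invertible, every nonzero epimorphism out of the unit is invertible. -/
lemma isIso_of_epi [BraidedCategory C]
    (hEnd : ∀ e : 𝟙_ C ⟶ 𝟙_ C, e ≠ 0 → IsIso e)
    {V : C} (φ : 𝟙_ C ⟶ V) [Epi φ] (hφ : φ ≠ 0) : IsIso φ := by
  let m : Vᘁ ⟶ 𝟙_ C := (ρ_ (Vᘁ)).inv ≫ (Vᘁ ◁ φ) ≫ ε_ V Vᘁ
  have hinj : ∀ {W : C} (h : W ⟶ Vᘁ), (h ▷ V) ≫ ε_ V Vᘁ = 0 → h = 0 := by
    intro W h hh
    have h1 : h = (ρ_ W).inv ≫ (W ◁ η_ V Vᘁ) ≫ (α_ _ _ _).inv ≫ (((h ▷ V) ≫ ε_ V Vᘁ) ▷ Vᘁ)
        ≫ (λ_ _).hom := by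
      have hz := ExactPairing.coevaluation_evaluation V Vᘁ
      rw [comp_whiskerRight, Category.assoc, ← associator_inv_naturality_left_assoc,
        whisker_exchange_assoc, reassoc_of% hz]
      simp
    rw [h1, hh]; simp
  have : Mono m := by
    rw [Preadditive.mono_iff_cancel_zero]
    intro W h hh
    apply hinj
    have := epi_whiskerLeft W φ
    rw [← cancel_epi (W ◁ φ), ← cancel_epi (ρ_ W).inv, comp_zero, comp_zero]
    rw [← hh]
    simp only [m]
    rw [whisker_exchange_assoc]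
    simp
  have : Epi (Vᘁ ◁ φ) := epi_whiskerLeft _ φ
  have : Mono (Vᘁ ◁ φ) := by
    have : Mono ((Vᘁ ◁ φ) ≫ ε_ V Vᘁ) := by
      have : (Vᘁ ◁ φ) ≫ ε_ V Vᘁ = (ρ_ (Vᘁ)).hom ≫ m := by simp [m]
      rw [this]; infer_instance
    exact mono_of_mono _ (ε_ V Vᘁ)
  have : IsIso (Vᘁ ◁ φ) := isIso_of_mono_of_epi _
  have : Mono (ε_ V Vᘁ) := by
    have : ε_ V Vᘁ = inv (Vᘁ ◁ φ) ≫ (ρ_ (Vᘁ)).hom ≫ m := by simp [m]
    rw [this]; infer_instance
  have hne : η_ V Vᘁ ≫ (β_ V Vᘁ).hom ≫ ε_ V Vᘁ ≠ 0 := by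
    intro h0
    have h1 : η_ V Vᘁ = 0 := by
      rw [← cancel_mono ((β_ V Vᘁ).hom ≫ ε_ V Vᘁ), h0, zero_comp]
    have h2 : 𝟙 V = 0 := by
      have hz := ExactPairing.evaluation_coevaluation V Vᘁ
      rw [h1] at hz
      have : (λ_ V).hom ≫ (ρ_ V).inv = 0 := by
        rw [← hz]; simp
      rw [← cancel_epi (λ_ V).hom, ← cancel_mono (ρ_ V).inv]
      simp [this]
    apply hφ
    rw [← Category.comp_id φ, h2, comp_zero]
  have := hEnd _ hne
  have : Epi (ε_ V Vᘁ) := by
    have : Epi ((η_ V Vᘁ ≫ (β_ V Vᘁ).hom) ≫ ε_ V Vᘁ) := by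
      rw [Category.assoc]; infer_instance
    exact epi_of_epi (η_ V Vᘁ ≫ (β_ V Vᘁ).hom) _
  have : IsIso (ε_ V Vᘁ) := isIso_of_mono_of_epi _
  have : IsIso m := by simp only [m]; infer_instance
  have h3 : 𝟙_ C ◁ φ = inv (m ▷ 𝟙_ C) ≫ (Vᘁ ◁ φ) ≫ (m ▷ V) := by
    rw [whisker_exchange]; simp
  have : IsIso (𝟙_ C ◁ φ) := by rw [h3]; infer_instance
  have h4 : φ = (λ_ _).inv ≫ (𝟙_ C ◁ φ) ≫ (λ_ _).hom := by simp
  rw [h4]; infer_instance

lemma mono_of_ne_zero [BraidedCategory C]
    (hEnd : ∀ e : 𝟙_ C ⟶ 𝟙_ C, e ≠ 0 → IsIso e)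
    {V : C} (φ : 𝟙_ C ⟶ V) (hφ : φ ≠ 0) : Mono φ := by
  have h1 : factorThruImage φ ≠ 0 := by
    intro h
    apply hφ
    rw [← image.fac φ, h, zero_comp]
  have := isIso_of_epi hEnd (factorThruImage φ) h1
  rw [← image.fac φ]
  infer_instance

lemma tensor_ne_zero [BraidedCategory C] (h1 : ¬ IsZero (𝟙_ C))
    (hEnd : ∀ e : 𝟙_ C ⟶ 𝟙_ C, e ≠ 0 → IsIso e)
    {V W : C} (φ : 𝟙_ C ⟶ V) (ψ : 𝟙_ C ⟶ W) (h : φ ⊗ₘ ψ = 0) : φ = 0 ∨ ψ = 0 := by
  by_contra hne
  push Not at hne
  have := mono_of_ne_zero hEnd φ hne.1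
  have := mono_of_ne_zero hEnd ψ hne.2
  have := mono_whiskerRight (𝟙_ C) φ
  have := mono_whiskerLeft V ψ
  rw [MonoidalCategory.tensorHom_def] at h
  apply h1
  have h2 : 𝟙 (𝟙_ C ⊗ 𝟙_ C) = 0 := by
    rw [← cancel_mono (φ ▷ 𝟙_ C ≫ V ◁ ψ), h]; simp
  have h3 : IsZero (𝟙_ C ⊗ 𝟙_ C) := (IsZero.iff_id_eq_zero _).2 h2
  exact h3.of_iso (λ_ _).symm


end Cc

section Main

variable {C : Type u} [Category.{v} C] [Abelian C] [MonoidalCategory C] [MonoidalPreadditive C]

/-- the natural projection `(K ⊗ L)⁰ ⟶ (K⁰/B⁰) ⊗ (L⁰/B⁰)`. -/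
def projZero (K L : BC C) : (HomologicalComplex.tensorObj K.obj L.obj).X 0 ⟶
    K.obj.opcycles 0 ⊗ L.obj.opcycles 0 :=
  HomologicalComplex.mapBifunctorDesc fun i j (_ : i + j = 0) =>
    if h : i = 0 ∧ j = 0 then
      (((HomologicalComplex.XIsoOfEq _ h.1).hom ≫ K.obj.pOpcycles 0) ⊗ₘ
        ((HomologicalComplex.XIsoOfEq _ h.2).hom ≫ L.obj.pOpcycles 0))
    else 0

lemma ι_projZero (K L : BC C) :
    HomologicalComplex.ιTensorObj K.obj L.obj 0 0 0 rfl ≫ projZero K L =
      (K.obj.pOpcycles 0 ⊗ₘ L.obj.pOpcycles 0) := by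
  rw [projZero, HomologicalComplex.ι_mapBifunctorDesc]
  simp

lemma ι_projZero' (K L : BC C) (i j : ℤ) (h : i + j = 0) (hi : i ≠ 0) :
    HomologicalComplex.ιTensorObj K.obj L.obj i j 0 h ≫ projZero K L = 0 := by
  rw [projZero, HomologicalComplex.ι_mapBifunctorDesc, dif_neg (by tauto)]

lemma d_projZero (K L : BC C) :
    (HomologicalComplex.tensorObj K.obj L.obj).d (-1) 0 ≫ projZero K L = 0 := by
  apply HomologicalComplex.mapBifunctor.hom_ext
  intro i j hij
  change i + j = -1 at hij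
  rw [HomologicalComplex.mapBifunctor.d_eq]
  simp only [Preadditive.add_comp, Preadditive.comp_add, comp_zero,
    HomologicalComplex.mapBifunctor.ι_D₁_assoc, HomologicalComplex.mapBifunctor.ι_D₂_assoc]
  rw [HomologicalComplex.mapBifunctor.d₁_eq (i₁' := i + 1) _ _ _ _ (by simp) j 0
    (by change i + 1 + j = 0; omega)]
  rw [HomologicalComplex.mapBifunctor.d₂_eq (i₂' := j + 1) _ _ _ _ i (by simp) 0
    (by change i + (j + 1) = 0; omega)]
  rw [Linear.units_smul_comp, Linear.units_smul_comp, Category.assoc, Category.assoc]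
  have e1 : ((curriedTensor C).map (K.obj.d i (i + 1))).app (L.obj.X j) ≫
      HomologicalComplex.ιMapBifunctor K.obj L.obj (curriedTensor C) (ComplexShape.up ℤ)
        (i + 1) j 0 (by change i + 1 + j = 0; omega) ≫ projZero K L = 0 := by
    by_cases hi : i + 1 = 0
    · obtain rfl : i = -1 := by omega
      obtain rfl : j = 0 := by omega
      refine Eq.trans (congrArg _ (ι_projZero K L)) ?_
      change K.obj.d (-1) 0 ▷ _ ≫ _ = _
      rw [← tensorHom_id, MonoidalCategory.tensorHom_comp_tensorHom]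
      simp
    · rw [ι_projZero' K L (i + 1) j _ hi, comp_zero]
  have e2 : ((curriedTensor C).obj (K.obj.X i)).map (L.obj.d j (j + 1)) ≫
      HomologicalComplex.ιMapBifunctor K.obj L.obj (curriedTensor C) (ComplexShape.up ℤ)
        i (j + 1) 0 (by change i + (j + 1) = 0; omega) ≫ projZero K L = 0 := by
    by_cases hi : i = 0
    · subst hi
      obtain rfl : j = -1 := by omega
      refine Eq.trans (congrArg _ (ι_projZero K L)) ?_
      change _ ◁ L.obj.d (-1) 0 ≫ _ = _
      rw [← id_tensorHom, MonoidalCategory.tensorHom_comp_tensorHom]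
      simp
    · rw [ι_projZero' K L i (j + 1) _ hi, comp_zero]
  rw [e1, e2]
  simp

/-- the induced map `(K ⊗ L)⁰/B⁰ ⟶ (K⁰/B⁰) ⊗ (L⁰/B⁰)`. -/
def projOp (K L : BC C) : (HomologicalComplex.tensorObj K.obj L.obj).opcycles 0 ⟶
    K.obj.opcycles 0 ⊗ L.obj.opcycles 0 :=
  (HomologicalComplex.tensorObj K.obj L.obj).descOpcycles (projZero K L) (-1) (by simp)
    (d_projZero K L)

variable [HasDerivedCategory.{w} C]

/-- if `α ⊗ β` vanishes in the derived category, so does `bar α ⊗ bar β`. -/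
lemma bar_tensor_eq_zero {P P' : C} {K L : BC C} (α : deg0 P ⟶ K) (β : deg0 P' ⟶ L)
    (h : DerivedCategory.Q.map (HomologicalComplex.tensorHom α.hom β.hom) = 0) :
    bar (P := P) α.hom ⊗ₘ bar (P := P') β.hom = 0 := by
  have h1 := comp_pOpcycles_eq_zero (HomologicalComplex.tensorHom α.hom β.hom) (by
    apply IsZero.eq_of_tgt
    apply isZero_tensorObj
    intro i j hij
    by_cases hi : i = 0
    · right
      exact HomologicalComplex.isZero_single_obj_X _ _ _ _ (by omega)
    · left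
      exact HomologicalComplex.isZero_single_obj_X _ _ _ _ hi) h
  have h2 : HomologicalComplex.ιTensorObj (deg0 P).obj (deg0 P').obj 0 0 0 rfl ≫
      (HomologicalComplex.tensorHom α.hom β.hom).f 0 ≫ projZero K L = 0 := by
    have h4 : (HomologicalComplex.tensorObj K.obj L.obj).pOpcycles 0 ≫ projOp K L =
      projZero K L := by rw [projOp, HomologicalComplex.p_descOpcycles]
    rw [← h4, reassoc_of% h1]
    simp
  have h3 : HomologicalComplex.ιTensorObj (deg0 P).obj (deg0 P').obj 0 0 0 rfl ≫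
      (HomologicalComplex.tensorHom α.hom β.hom).f 0 = (α.hom.f 0 ⊗ₘ β.hom.f 0) ≫
        HomologicalComplex.ιTensorObj K.obj L.obj 0 0 0 rfl := by
    have := HomologicalComplex.ι_mapBifunctorMap α.hom β.hom (curriedTensor C) (ComplexShape.up ℤ)
      0 0 0 rfl
    rw [MonoidalCategory.tensorHom_def, Category.assoc]
    exact this
  rw [reassoc_of% h3, ι_projZero, MonoidalCategory.tensorHom_comp_tensorHom] at h2
  rw [bar, bar, ← MonoidalCategory.tensorHom_comp_tensorHom]
  exact (congrArg (_ ≫ ·) h2).trans comp_zero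

end Main
section Last

variable {C : Type u} [Category.{v} C] [Abelian C] [MonoidalCategory C] [MonoidalPreadditive C]

/-- a morphism of `C`, viewed as a morphism of complexes concentrated in degree `0`. -/
def deg0Map {M N : C} (f : M ⟶ N) : deg0 M ⟶ deg0 N :=
  (bdd C).homMk ((HomologicalComplex.single C (ComplexShape.up ℤ) 0).map f)

lemma deg0Map_comp {M N R : C} (f : M ⟶ N) (g : N ⟶ R) :
    deg0Map (f ≫ g) = deg0Map f ≫ deg0Map g := by
  ext : 1
  exact (HomologicalComplex.single C (ComplexShape.up ℤ) 0).map_comp f g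

lemma deg0Map_zero {M N : C} : deg0Map (0 : M ⟶ N) = 0 := by
  ext : 1
  exact (HomologicalComplex.single C (ComplexShape.up ℤ) 0).map_zero M N

lemma bar_comp {M N : C} (f : M ⟶ N) {K : BC C} (α : deg0 N ⟶ K) :
    bar (P := M) (deg0Map f ≫ α).hom = f ≫ bar (P := N) α.hom := by
  have h : (HomologicalComplex.singleObjXSelf (ComplexShape.up ℤ) 0 M).inv ≫
      ((HomologicalComplex.single C (ComplexShape.up ℤ) 0).map f).f 0 =
      f ≫ (HomologicalComplex.singleObjXSelf (ComplexShape.up ℤ) 0 N).inv := by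
    simp [HomologicalComplex.single_map_f_self]
  change (HomologicalComplex.singleObjXSelf (ComplexShape.up ℤ) 0 M).inv ≫
    (((HomologicalComplex.single C (ComplexShape.up ℤ) 0).map f).f 0 ≫ α.hom.f 0) ≫
      K.obj.pOpcycles 0 = _
  rw [Category.assoc, reassoc_of% h]
  rfl

lemma epi_single_f {M N : C} (p : M ⟶ N) [Epi p] (i : ℤ) :
    Epi (((HomologicalComplex.single C (ComplexShape.up ℤ) 0).map p).f i) := by
  by_cases hi : i = 0
  · subst hi
    rw [HomologicalComplex.single_map_f_self]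
    infer_instance
  · constructor
    intro Z g h _
    exact (HomologicalComplex.isZero_single_obj_X _ _ _ _ hi).eq_of_src _ _

variable [RigidCategory C]

lemma isZero_deg0_tens (M N : C) (i : ℤ) (hi : i ≠ 0) :
    IsZero ((tens (deg0 M) (deg0 N)).obj.X i) := by
  apply isZero_tensorObj
  intro a b hab
  by_cases ha : a = 0
  · right
    exact HomologicalComplex.isZero_single_obj_X _ _ _ _ (by omega)
  · left
    exact HomologicalComplex.isZero_single_obj_X _ _ _ _ ha

lemma epi_tens {M N P : C} (p : M ⟶ N) [Epi p] :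
    Epi ((HomologicalComplex.tensorHom (deg0Map p).hom (𝟙 (deg0 P).obj)).f 0) := by
  rw [Preadditive.epi_iff_cancel_zero]
  intro W g hg
  apply HomologicalComplex.mapBifunctor.hom_ext
  intro i j hij
  have h1 := HomologicalComplex.ι_mapBifunctorMap (deg0Map p).hom (𝟙 (deg0 P).obj)
    (curriedTensor C) (ComplexShape.up ℤ) i j 0 hij
  have h0 : Epi ((deg0Map p).hom.f i) := epi_single_f p i
  have h2 : Epi ((deg0Map p).hom.f i ▷ (deg0 P).obj.X j) := epi_whiskerRight _ _
  have h3 : (deg0Map p).hom.f i ▷ (deg0 P).obj.X j ≫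
      HomologicalComplex.ιMapBifunctor (deg0 N).obj (deg0 P).obj (curriedTensor C)
        (ComplexShape.up ℤ) i j 0 hij =
      HomologicalComplex.ιMapBifunctor (deg0 M).obj (deg0 P).obj (curriedTensor C)
        (ComplexShape.up ℤ) i j 0 hij ≫
        (HomologicalComplex.tensorHom (deg0Map p).hom (𝟙 (deg0 P).obj)).f 0 := by
    refine Eq.trans ?_ h1.symm
    simp
  refine h2.left_cancellation _ _ ?_
  rw [← Category.assoc, h3, Category.assoc, hg, comp_zero, comp_zero, comp_zero]

lemma projective_tens (M P : C) [Projective P] :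
    Projective ((HomologicalComplex.tensorObj (deg0 M).obj (deg0 P).obj).X 0) := by
  have hp : ∀ i j : ℤ, Projective (((curriedTensor C).obj ((deg0 M).obj.X i)).obj
      ((deg0 P).obj.X j)) := by
    intro i j
    have : Projective ((deg0 P).obj.X j) := inferInstanceAs (Projective ((sg P).X j))
    exact projective_tensor _ _
  constructor
  intro E X f e _
  refine ⟨HomologicalComplex.mapBifunctorDesc (fun i j hij => 
    @Projective.factorThru C _ _ _ _ (hp i j) (HomologicalComplex.ιMapBifunctor (deg0 M).obj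
      (deg0 P).obj (curriedTensor C) (ComplexShape.up ℤ) i j 0 hij ≫ f) e _), ?_⟩
  apply HomologicalComplex.mapBifunctor.hom_ext
  intro i j hij
  rw [HomologicalComplex.ι_mapBifunctorDesc_assoc]
  exact @Projective.factorThru_comp C _ _ _ _ (hp i j) _ _ _

lemma exists_section {M N P : C} (p : M ⟶ N) [Epi p] [Projective P] :
    ∃ σ : tens (deg0 N) (deg0 P) ⟶ tens (deg0 M) (deg0 P),
      σ ≫ tensMap (deg0Map p) (𝟙 (deg0 P)) = 𝟙 _ := by
  have h1 : Epi ((tensMap (deg0Map p) (𝟙 (deg0 P))).hom.f 0) := epi_tens (P := P) p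
  have h2 : Projective ((tens (deg0 N) (deg0 P)).obj.X 0) := projective_tens N P
  let s0 := Projective.factorThru (𝟙 _) ((tensMap (deg0Map p) (𝟙 (deg0 P))).hom.f 0)
  have hs : s0 ≫ (tensMap (deg0Map p) (𝟙 (deg0 P))).hom.f 0 = 𝟙 _ :=
    Projective.factorThru_comp _ _
  let σ : (tens (deg0 N) (deg0 P)).obj ⟶ (tens (deg0 M) (deg0 P)).obj :=
    HomologicalComplex.mkHomToSingle (j := 0) (𝟙 ((tens (deg0 N) (deg0 P)).obj.X 0))
      (fun i hi => (isZero_deg0_tens N P i (by simp at hi; omega)).eq_of_src _ _) ≫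
    HomologicalComplex.mkHomFromSingle s0
      (fun i hi => (isZero_deg0_tens M P i (by simp at hi; omega)).eq_of_tgt _ _)
  refine ⟨(bdd C).homMk σ, ?_⟩
  ext : 1
  ext i
  by_cases hi : i = 0
  · subst hi
    simp [σ, hs]
  · exact (isZero_deg0_tens N P i hi).eq_of_src _ _

end Last

section Final

variable {C : Type u} [Category.{v} C] [Abelian C] [MonoidalCategory C] [MonoidalPreadditive C]
variable [HasDerivedCategory.{w} C]

lemma exists_repDb {P : C} [Projective P] {K : BC C}
    (f : (toDb C).obj (deg0 P) ⟶ (toDb C).obj K) : ∃ α : deg0 P ⟶ K, (toDb C).map α = f := by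
  obtain ⟨α, hα⟩ := exists_rep P K.obj f.hom
  refine ⟨(bdd C).homMk α, ?_⟩
  ext : 1
  exact hα

lemma toDb_zero {K L : BC C} : (toDb C).map (0 : K ⟶ L) = 0 := by
  ext : 1
  exact DerivedCategory.Q.map_zero K.obj L.obj

lemma bar_of_toDb {P : C} {K : BC C} (α : deg0 P ⟶ K) (h : (toDb C).map α = 0) :
    bar (P := P) α.hom = 0 :=
  bar_eq_zero_of (P := P) α.hom (congrArg (fun x => x.hom) h)

lemma toDb_of_bar {P : C} [Projective P] {K : BC C} (α : deg0 P ⟶ K)
    (h : bar (P := P) α.hom = 0) : (toDb C).map α = 0 := by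
  ext : 1
  exact Q_eq_zero_of_bar (P := P) α.hom h

lemma exists_factor [EnoughProjectives C] {P M : C} (p : P ⟶ M) [Epi p] {K : BC C}
    (f : (toDb C).obj (deg0 M) ⟶ (toDb C).obj K) (α : deg0 P ⟶ K)
    (h : (toDb C).map α = (toDb C).map (deg0Map p) ≫ f) :
    ∃ φ : M ⟶ K.obj.opcycles 0, p ≫ φ = bar (P := P) α.hom := by
  have h1 : kernel.ι p ≫ bar (P := P) α.hom = 0 := by
    rw [← cancel_epi (Projective.π (kernel p)), comp_zero, ← Category.assoc, ← bar_comp]
    apply bar_of_toDb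
    rw [Functor.map_comp, h, ← Category.assoc, ← Functor.map_comp, ← deg0Map_comp]
    simp [deg0Map_zero, toDb_zero]
  have hex : (ShortComplex.mk (kernel.ι p) p (kernel.condition p)).Exact :=
    ShortComplex.exact_of_f_is_kernel _ (kernelIsKernel p)
  have : Epi (ShortComplex.mk (kernel.ι p) p (kernel.condition p)).g := by
    assumption
  exact ⟨hex.desc _ h1, hex.g_desc _ h1⟩

variable [MonoidalCategory (Db C)]

lemma zero_whisker (T : Induced C) {K L : BC C} (M : BC C) :
    (0 : (toDb C).obj K ⟶ (toDb C).obj L) ▷ ((toDb C).obj M) = 0 := by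
  have h := T.natural (0 : K ⟶ L) (𝟙 M)
  have h0 : tensMap (0 : K ⟶ L) (𝟙 M) = 0 := by
    ext : 1
    apply HomologicalComplex.Hom.ext
    funext i
    apply HomologicalComplex.mapBifunctor.hom_ext
    intro a b hab
    have h1 := HomologicalComplex.ι_mapBifunctorMap (0 : K ⟶ L).hom (𝟙 M.obj)
      (curriedTensor C) (ComplexShape.up ℤ) a b i hab
    refine h1.trans ?_
    have : (0 : K ⟶ L).hom = 0 := rfl
    rw [this]
    simp only [HomologicalComplex.zero_f, Functor.map_zero, zero_app, zero_comp]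
    exact comp_zero.symm
  rw [h0, toDb_zero, toDb_zero, CategoryTheory.Functor.map_id, comp_zero, tensorHom_id] at h
  rw [← cancel_mono (T.tensIso L M).hom, h, zero_comp]

lemma vanish [RigidCategory C] (T : Induced C) {M N P : C} (p : M ⟶ N) [Epi p] [Projective P]
    {K : BC C} (f : (toDb C).obj (deg0 N) ⟶ (toDb C).obj K)
    (h : (toDb C).map (deg0Map p) ≫ f = 0) : f ▷ (toDb C).obj (deg0 P) = 0 := by
  obtain ⟨σ, hσ⟩ := exists_section (P := P) p
  have h1 := T.natural (deg0Map p) (𝟙 (deg0 P))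
  rw [CategoryTheory.Functor.map_id, tensorHom_id] at h1
  have hepi : Epi (((toDb C).map (deg0Map p)) ▷ (toDb C).obj (deg0 P)) := by
    have h2 : (T.tensIso (deg0 N) (deg0 P)).hom ≫ (toDb C).map σ ≫
        (T.tensIso (deg0 M) (deg0 P)).inv ≫
        (((toDb C).map (deg0Map p)) ▷ (toDb C).obj (deg0 P)) = 𝟙 _ := by
      rw [← cancel_mono (T.tensIso (deg0 N) (deg0 P)).hom]
      simp only [Category.assoc, h1, Iso.inv_hom_id_assoc, Category.id_comp]
      rw [← Functor.map_comp, hσ, CategoryTheory.Functor.map_id, Category.comp_id]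
    constructor
    intro W a b hab
    rw [← Category.id_comp a, ← Category.id_comp b, ← h2]
    simp only [Category.assoc, hab]
  rw [← cancel_epi (((toDb C).map (deg0Map p)) ▷ (toDb C).obj (deg0 P)), ← comp_whiskerRight, h,
    comp_zero]
  exact zero_whisker T _

theorem main [RigidCategory C] [BraidedCategory C] [EnoughProjectives C]
    (h1 : ¬ IsZero (𝟙_ C)) (hEnd : ∀ e : 𝟙_ C ⟶ 𝟙_ C, e ≠ 0 → IsIso e) (T : Induced C) :
    ∃ Z : Db C, ¬ IsZero Z ∧ ∀ (X Y : Db C) (f : 𝟙_ (Db C) ⟶ X) (g : 𝟙_ (Db C) ⟶ Y),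
      f ⊗ₘ g = 0 → f ▷ Z = 0 ∨ g ▷ Z = 0 := by
  let P : C := Projective.over (𝟙_ C)
  let p : P ⟶ 𝟙_ C := Projective.π (𝟙_ C)
  refine ⟨(toDb C).obj (deg0 P), ?_, ?_⟩
  · intro hZ
    apply h1
    have h2 : (toDb C).map (𝟙 (deg0 P)) = 0 := by
      rw [CategoryTheory.Functor.map_id]; exact hZ.eq_of_src _ _
    have h3 := bar_of_toDb _ h2
    have h4 : IsIso (bar (P := P) (𝟙 (deg0 P) : deg0 P ⟶ deg0 P).hom) := by
      have : IsIso ((sg P).pOpcycles 0) := (sg P).isIso_pOpcycles (-1) 0 (by simp) (by simp)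
      have h5 : bar (P := P) (𝟙 (deg0 P) : deg0 P ⟶ deg0 P).hom =
          (HomologicalComplex.singleObjXSelf (ComplexShape.up ℤ) 0 P).inv ≫
            (sg P).pOpcycles 0 := by
        have : (𝟙 (deg0 P) : deg0 P ⟶ deg0 P).hom = 𝟙 (sg P) := rfl
        rw [bar, this, HomologicalComplex.id_f]
        exact congrArg _ (Category.id_comp _)
      rw [h5]
      exact @IsIso.comp_isIso _ _ _ _ _ _ _ _ this
    have h6 : IsZero P := by
      rw [IsZero.iff_id_eq_zero, ← cancel_mono (bar (P := P) (𝟙 (deg0 P) : deg0 P ⟶ deg0 P).hom), h3]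
      simp
    rw [IsZero.iff_id_eq_zero, ← cancel_epi p]
    exact h6.eq_of_src _ _
  · intro X Y f g hfg
    obtain ⟨K, ⟨eK⟩⟩ := X.property
    obtain ⟨L, ⟨eL⟩⟩ := Y.property
    let eX : X ≅ (toDb C).obj K := (isBddD C).isoMk eK
    let eY : Y ≅ (toDb C).obj L := (isBddD C).isoMk eL
    let f' : (toDb C).obj (deg0 (𝟙_ C)) ⟶ (toDb C).obj K := T.unitIso.inv ≫ f ≫ eX.hom
    let g' : (toDb C).obj (deg0 (𝟙_ C)) ⟶ (toDb C).obj L := T.unitIso.inv ≫ g ≫ eY.hom
    have hf : f = T.unitIso.hom ≫ f' ≫ eX.inv := by simp [f']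
    have hg : g = T.unitIso.hom ≫ g' ≫ eY.inv := by simp [g']
    obtain ⟨α, hα⟩ := exists_repDb ((toDb C).map (deg0Map p) ≫ f')
    obtain ⟨β, hβ⟩ := exists_repDb ((toDb C).map (deg0Map p) ≫ g')
    obtain ⟨φ, hφ⟩ := exists_factor p f' α hα
    obtain ⟨ψ, hψ⟩ := exists_factor p g' β hβ
    -- `α ⊗ β` vanishes in the derived category
    have h2 : (toDb C).map (tensMap α β) = 0 := by
      have h3 := T.natural α β
      have h4 : (toDb C).map α ⊗ₘ (toDb C).map β = 0 := by
        rw [hα, hβ]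
        have h5 : ((toDb C).map (deg0Map p) ≫ f') ⊗ₘ ((toDb C).map (deg0Map p) ≫ g') =
          (((toDb C).map (deg0Map p) ≫ T.unitIso.inv) ⊗ₘ
            ((toDb C).map (deg0Map p) ≫ T.unitIso.inv)) ≫ (f ⊗ₘ g) ≫ (eX.hom ⊗ₘ eY.hom) := by
          simp [f', g', MonoidalCategory.tensorHom_comp_tensorHom]
        rw [h5, hfg]
        simp
      rw [h4, zero_comp] at h3
      rw [← cancel_epi (T.tensIso (deg0 P) (deg0 P)).hom, ← h3, comp_zero]
    have h3 : bar (P := P) α.hom ⊗ₘ bar (P := P) β.hom = 0 :=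
      bar_tensor_eq_zero α β (congrArg (fun x => x.hom) h2)
    have h4 : φ ⊗ₘ ψ = 0 := by
      rw [← hφ, ← hψ, ← MonoidalCategory.tensorHom_comp_tensorHom] at h3
      have e1 := epi_whiskerRight P p
      have e2 := epi_whiskerLeft (𝟙_ C) p
      have : Epi (p ⊗ₘ p) := by
        rw [MonoidalCategory.tensorHom_def]; infer_instance
      rw [← cancel_epi (p ⊗ₘ p), h3, comp_zero]
    rcases tensor_ne_zero h1 hEnd φ ψ h4 with h5 | h5
    · left
      have h6 : (toDb C).map (deg0Map p) ≫ f' = 0 := by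
        rw [← hα]; apply toDb_of_bar; rw [← hφ, h5, comp_zero]
      have h7 := vanish (P := P) T p f' h6
      rw [hf]; simp [h7]
    · right
      have h6 : (toDb C).map (deg0Map p) ≫ g' = 0 := by
        rw [← hβ]; apply toDb_of_bar; rw [← hψ, h5, comp_zero]
      have h7 := vanish (P := P) T p g' h6
      rw [hg]; simp [h7]

end Final

/-- `C`, a `k`-linear abelian rigid monoidal category with bilinear tensor product, is a *finite
tensor category* over the field `k`: the Hom spaces are finite-dimensional, every object has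
finite length, there are finitely many simple objects up to isomorphism and enough projectives,
and `End(𝟙) = k`. -/
structure IsFiniteTensorCategory (k : Type*) [Field k] (C : Type u) [Category.{v} C] [Abelian C]
    [Linear k C] [MonoidalCategory C] : Prop where
  finite_hom : ∀ X Y : C, Module.Finite k (X ⟶ Y)
  finite_length : ∀ X : C, IsNoetherianObject X ∧ IsArtinianObject X
  finitely_many_simples : ∃ S : Finset C, ∀ X : C, Simple X → ∃ Y ∈ S, Nonempty (X ≅ Y)
  enough_projectives : EnoughProjectives C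
  end_unit : Function.Bijective (fun a : k => a • 𝟙 (𝟙_ C))

/-- **Full answer to Q1 (positive).** -/
theorem result (k : Type*) [Field k] (C : Type u) [Category.{v} C] [Abelian C] [Linear k C]
    [MonoidalCategory C] [MonoidalPreadditive C] [MonoidalLinear k C] [RigidCategory C]
    [SymmetricCategory C] (hC : IsFiniteTensorCategory k C)
    [HasDerivedCategory.{w} C] [MonoidalCategory (Db C)] (T : Induced C) :
    ∃ Z : Db C, ¬ IsZero Z ∧ ∀ (X Y : Db C) (f : 𝟙_ (Db C) ⟶ X) (g : 𝟙_ (Db C) ⟶ Y),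
      f ⊗ₘ g = 0 → f ▷ Z = 0 ∨ g ▷ Z = 0 := by
  have := hC.enough_projectives
  have hne : (𝟙 (𝟙_ C) : 𝟙_ C ⟶ 𝟙_ C) ≠ 0 := by
    intro h
    have := hC.end_unit.1 (show (fun a : k => a • 𝟙 (𝟙_ C)) 1 = (fun a : k => a • 𝟙 (𝟙_ C)) 0 by
      simp [h])
    exact one_ne_zero this
  refine main (fun h => hne ((IsZero.iff_id_eq_zero _).1 h)) (fun e he => ?_) T
  obtain ⟨a, rfl⟩ := hC.end_unit.2 e
  have ha : a ≠ 0 := by
    rintro rfl
    simp at he
  refine ⟨a⁻¹ • 𝟙 _, ?_, ?_⟩
  · simp [smul_smul, ha]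
  · simp [smul_smul, ha]

end Pool.Agent.Results.MP_93437d_al.NilpotentOnObject
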